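import Pool.Agent.H17.P3.Defs
import Pool.Agent.H17.TR.Cograph

set_option autoImplicit false

/-!
Claim A of helper44's note 7046 (MP_a46c6f_co): a `P4`-free set in which every closed pair has a
midpoint has a constant vertex; and every non isolated vertex lies in a component with a full vertex.
-/

namespace Pool.Agent.H86.P4

open Pool.Agent.H17.P3

variable {X : Type}

theorem z01 (a : ZMod 2) : a = 0 ∨ a = 1 := by revert a; decide

theorem zne {a s : ZMod 2} (h : a ≠ s) : a = s + 1 := by revert a s; decide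

theorem zs (s : ZMod 2) : s + 1 ≠ s := by revert s; decide

theorem z1 {a : ZMod 2} (h : a ≠ 0) : a = 1 := by revert a; decide

theorem z0 {a : ZMod 2} (h : a ≠ 1) : a = 0 := by revert a; decide

/-- every closed pair of `D` has a midpoint in `D` -/
def PairsIn (M : X → X → ZMod 2) (D : Finset X) : Prop :=
  ∀ u ∈ D, ∀ v ∈ D, M u u = M v v → M u v ≠ M u u →
    ∃ g ∈ D, M g g ≠ M u u ∧ M g u = M g g ∧ M g v = M g g ∧
      ∀ x ∈ D, M u x = M v x → M g x = M u x

/-- no induced path on four vertices in `D` -/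
def Free (M : X → X → ZMod 2) (D : Finset X) : Prop :=
  ∀ a ∈ D, ∀ b ∈ D, ∀ c ∈ D, ∀ d ∈ D, ¬ IsP4 M a b c d

theorem Free.mono {M : X → X → ZMod 2} {D E : Finset X} (h : Free M D) (hE : E ⊆ D) : Free M E :=
  fun a ha b hb c hc d hd => h a (hE ha) b (hE hb) c (hE hc) d (hE hd)

section
variable [DecidableEq X]

theorem seinsche {M : X → X → ZMod 2} (hs : ∀ x y, M x y = M y x) {D : Finset X} (hF : Free M D)
    (h2 : 2 ≤ D.card) :
    ∃ B ⊆ D, B.Nonempty ∧ (D \ B).Nonempty ∧ ∃ s, ∀ u ∈ B, ∀ w ∈ D \ B, M u w = s := by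
  obtain ⟨B, -, hB0, hB1, s, hB⟩ := Pool.Agent.H17.TR.seinsche
    (fun x y : {x // x ∈ D} => M x.1 y.1) (fun x y => hs _ _)
    (fun a b c d h => hF a.1 a.2 b.1 b.2 c.1 c.2 d.1 d.2 ⟨h.ab, h.bc, h.cd, h.ac, h.ad, h.bd⟩)
    (Finset.univ : Finset {x // x ∈ D}).card Finset.univ rfl (by simpa using h2)
  have hmem : ∀ x (hx : x ∈ D), x ∈ B.image Subtype.val ↔ (⟨x, hx⟩ : {x // x ∈ D}) ∈ B := by
    intro x hx
    constructor
    · intro h
      obtain ⟨z, hz, rfl⟩ := Finset.mem_image.1 h
      exact hz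
    · intro h
      exact Finset.mem_image.2 ⟨_, h, rfl⟩
  refine ⟨B.image Subtype.val, ?_, ?_, ?_, s, ?_⟩
  · intro x hx
    obtain ⟨z, hz, rfl⟩ := Finset.mem_image.1 hx
    exact z.2
  · obtain ⟨z, hz⟩ := Finset.nonempty_iff_ne_empty.2 hB0
    exact ⟨z.1, Finset.mem_image.2 ⟨z, hz, rfl⟩⟩
  · by_contra hne
    apply hB1
    ext z
    simp only [Finset.mem_univ, iff_true]
    by_contra hz
    apply hne
    exact ⟨z.1, Finset.mem_sdiff.2 ⟨z.2, fun h => hz ((hmem z.1 z.2).1 h)⟩⟩
  · intro u hu w hw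
    obtain ⟨z, hz, rfl⟩ := Finset.mem_image.1 hu
    rw [Finset.mem_sdiff] at hw
    exact hB z hz ⟨w, hw.1⟩ (Finset.mem_univ _) (fun h => hw.2 ((hmem w hw.1).2 h))

/-- one side of a split: a vertex of `D` with constant row, or a vertex of the side with constant
row `s + 1` on the side -/
theorem side {M : X → X → ZMod 2} {D B : Finset X} (hBD : B ⊆ D) {s : ZMod 2}
    (hs : ∀ x y, M x y = M y x) (hc : ∀ u ∈ B, ∀ w ∈ D, w ∉ B → M u w = s) (hP : PairsIn M D)
    (ih : PairsIn M B → ∃ x ∈ B, ∃ t, ∀ y ∈ B, M x y = t) :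
    (∃ x ∈ D, ∃ t, ∀ y ∈ D, M x y = t) ∨ ∃ x ∈ B, ∀ y ∈ B, M x y = s + 1 := by
  by_cases hPB : PairsIn M B
  · obtain ⟨x, hx, t, ht⟩ := ih hPB
    by_cases hts : t = s
    · left
      refine ⟨x, hBD hx, s, ?_⟩
      intro y hy
      by_cases hyB : y ∈ B
      · rw [ht y hyB, hts]
      · exact hc x hx y hy hyB
    · right
      refine ⟨x, hx, ?_⟩
      intro y hy
      rw [ht y hy]
      exact zne hts
  · left
    simp only [PairsIn, not_forall] at hPB
    obtain ⟨u, hu, v, hv, h1, h2, h3⟩ := hPB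
    obtain ⟨g, hg, g1, g2, g3, g4⟩ := hP u (hBD hu) v (hBD hv) h1 h2
    have hgB : g ∉ B := by
      intro hgB
      exact h3 ⟨g, hgB, g1, g2, g3, fun x hx => g4 x (hBD hx)⟩
    refine ⟨g, hg, s, ?_⟩
    intro y hy
    by_cases hyB : y ∈ B
    · rw [hs]
      exact hc y hyB g hg hgB
    · have h5 : M u y = M v y := by rw [hc u hu y hy hyB, hc v hv y hy hyB]
      rw [g4 y hy h5]
      exact hc u hu y hy hyB

/-- **Claim A** -/
theorem claimA {M : X → X → ZMod 2} (hs : ∀ x y, M x y = M y x) : ∀ (n : ℕ) (D : Finset X),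
    D.card = n → D.Nonempty → Free M D → PairsIn M D → ∃ x ∈ D, ∃ t, ∀ y ∈ D, M x y = t := by
  intro n
  induction n using Nat.strong_induction_on with
  | _ n ih =>
    intro D hn hne hF hP
    by_cases h2 : 2 ≤ D.card
    · obtain ⟨B, hBD, hB0, hB1, s, hc⟩ := seinsche hs hF h2
      have hlt1 : B.card < n := by
        rw [← hn]
        apply Finset.card_lt_card
        rw [Finset.ssubset_iff_subset_ne]
        refine ⟨hBD, ?_⟩
        rintro rfl
        simp at hB1
      have hlt2 : (D \ B).card < n := by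
        have := Finset.card_sdiff_add_card_eq_card hBD
        have := Finset.card_pos.2 hB0
        omega
      have hd1 := side hBD hs (s := s) (fun u hu w hw hwB => hc u hu w (Finset.mem_sdiff.2 ⟨hw, hwB⟩))
        hP (fun h => ih _ hlt1 B rfl hB0 (hF.mono hBD) h)
      have hd2 := side (B := D \ B) Finset.sdiff_subset hs (s := s) (by
          intro u hu w hw hwn
          have hwB : w ∈ B := by
            by_contra h
            exact hwn (Finset.mem_sdiff.2 ⟨hw, h⟩)
          rw [hs]
          exact hc w hwB u hu) hP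
        (fun h => ih _ hlt2 (D \ B) rfl hB1 (hF.mono Finset.sdiff_subset) h)
      rcases hd1 with hd1 | ⟨x, hx, hx1⟩
      · exact hd1
      rcases hd2 with hd2 | ⟨y, hy, hy1⟩
      · exact hd2
      exfalso
      have hyD := (Finset.mem_sdiff.1 hy).1
      obtain ⟨g, hg, g1, g2, g3, -⟩ := hP x (hBD hx) y hyD (by rw [hx1 x hx, hy1 y hy])
        (by rw [hc x hx y hy, hx1 x hx]; exact (zs s).symm)
      rw [hx1 x hx] at g1
      by_cases hgB : g ∈ B
      · have := hx1 g hgB
        rw [hs, g2] at this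
        exact g1 this
      · have := hy1 g (Finset.mem_sdiff.2 ⟨hg, hgB⟩)
        rw [hs, g3] at this
        exact g1 this
    · obtain ⟨x, hx⟩ := hne
      have hc1 : D.card = 1 := by
        have := Finset.card_pos.2 ⟨x, hx⟩
        omega
      obtain ⟨z, rfl⟩ := Finset.card_eq_one.1 hc1
      refine ⟨z, Finset.mem_singleton_self _, M z z, ?_⟩
      intro y hy
      rw [Finset.mem_singleton.1 hy]

/-- **component form**: a vertex with a neighbour in `D` sees a full vertex of its component -/
theorem comp {M : X → X → ZMod 2} (hs : ∀ x y, M x y = M y x) {D : Finset X} (hF : Free M D)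
    (hP : PairsIn M D) {x y : X} (hx : x ∈ D) (hy : y ∈ D) (hxy : M x y = 1) :
    ∃ f ∈ D, M f f = 1 ∧ M f x = 1 ∧ ∀ u ∈ D, ∀ w ∈ D, M f u = 1 → M u w = 1 → M f w = 1 := by
  classical
  -- the component of `x`
  let Good : Finset X → Prop := fun K => K ⊆ D ∧ x ∈ K ∧ ∀ u ∈ K, ∀ w ∈ D, M u w = 1 → w ∈ K
  have hex : ∃ k, ∃ K, Good K ∧ K.card = k :=
    ⟨_, D, ⟨Finset.Subset.refl _, hx, fun u hu w hw _ => hw⟩, rfl⟩
  obtain ⟨K, hK, hKc⟩ := Nat.find_spec hex
  have hmin : ∀ C, Good C → K.card ≤ C.card := by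
    intro C hC
    rw [hKc]
    exact Nat.find_min' hex ⟨C, hC, rfl⟩
  obtain ⟨hKD, hxK, hcl⟩ := hK
  -- no closed subset of `K`
  have hno : ∀ B ⊆ K, x ∈ B → (∀ u ∈ B, ∀ w ∈ K, w ∉ B → M u w = 0) → B = K := by
    intro B hBK hxB hB
    apply Finset.eq_of_subset_of_card_le hBK
    apply hmin
    refine ⟨hBK.trans hKD, hxB, ?_⟩
    intro u hu w hw huw
    by_contra hwB
    have := hB u hu w (hcl u (hBK hu) w hw huw) hwB
    rw [this] at huw
    exact zero_ne_one huw
  have hyK : y ∈ K := hcl x hxK y hy hxy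
  have hPK : PairsIn M K := by
    intro u hu v hv h1 h2
    obtain ⟨g, hg, g1, g2, g3, g4⟩ := hP u (hKD hu) v (hKD hv) h1 h2
    have hgK : g ∈ K := by
      rcases z01 (M g u) with h0 | h0
      · -- the loops are one, a common neighbour
        have hgg : M g g = 0 := by rw [← g2, h0]
        have huu : M u u = 1 := z1 (fun h => g1 (by rw [hgg, h]))
        have huv : M u v = 0 := z0 (fun h => h2 (by rw [h, huu]))
        have huv' : u ≠ v := by
          rintro rfl
          rw [huu] at huv
          exact one_ne_zero huv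
        have h2K : 2 ≤ K.card := by
          have : ({u, v} : Finset X) ⊆ K := by
            intro z hz
            rw [Finset.mem_insert, Finset.mem_singleton] at hz
            rcases hz with rfl | rfl <;> assumption
          have h3 := Finset.card_le_card this
          rw [Finset.card_pair huv'] at h3
          exact h3
        obtain ⟨B, hBK, hB0, hB1, s, hc⟩ := seinsche hs (hF.mono hKD) h2K
        have hs1 : s = 1 := by
          apply z1
          intro hs0
          rw [hs0] at hc
          by_cases hxB : x ∈ B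
          · have := hno B hBK hxB (fun u hu w hw hwB => hc u hu w (Finset.mem_sdiff.2 ⟨hw, hwB⟩))
            rw [this] at hB1
            simp at hB1
          · have := hno (K \ B) Finset.sdiff_subset (Finset.mem_sdiff.2 ⟨hxK, hxB⟩) (by
              intro u hu w hw hwn
              have hwB : w ∈ B := by
                by_contra h
                exact hwn (Finset.mem_sdiff.2 ⟨hw, h⟩)
              rw [hs]
              exact hc w hwB u hu)
            obtain ⟨z, hz⟩ := hB0
            have hz' : z ∈ K \ B := by rw [this]; exact hBK hz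
            exact (Finset.mem_sdiff.1 hz').2 hz
        rw [hs1] at hc
        have hcn : ∃ w ∈ K, M u w = 1 ∧ M v w = 1 := by
          by_cases huB : u ∈ B
          · by_cases hvB : v ∈ B
            · obtain ⟨w, hw⟩ := hB1
              exact ⟨w, (Finset.mem_sdiff.1 hw).1, hc u huB w hw, hc v hvB w hw⟩
            · have := hc u huB v (Finset.mem_sdiff.2 ⟨hv, hvB⟩)
              rw [huv] at this
              exact absurd this zero_ne_one
          · by_cases hvB : v ∈ B
            · have := hc v hvB u (Finset.mem_sdiff.2 ⟨hu, huB⟩)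
              rw [hs, huv] at this
              exact absurd this zero_ne_one
            · obtain ⟨w, hw⟩ := hB0
              exact ⟨w, hBK hw, by rw [hs]; exact hc w hw u (Finset.mem_sdiff.2 ⟨hu, huB⟩),
                by rw [hs]; exact hc w hw v (Finset.mem_sdiff.2 ⟨hv, hvB⟩)⟩
        obtain ⟨w, hw, hw1, hw2⟩ := hcn
        have hgw : M g w = 1 := by
          rw [g4 w (hKD hw) (by rw [hw1, hw2]), hw1]
        exact hcl w hw g hg (by rw [hs]; exact hgw)
      · exact hcl u hu g hg (by rw [hs]; exact h0)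
    exact ⟨g, hgK, g1, g2, g3, fun x hx => g4 x (hKD hx)⟩
  obtain ⟨f, hf, t, ht⟩ := claimA hs _ K rfl ⟨x, hxK⟩ (hF.mono hKD) hPK
  rcases z01 t with rfl | rfl
  · exfalso
    have hxf : x ≠ f := by
      rintro rfl
      rw [ht y hyK] at hxy
      exact zero_ne_one hxy
    have := hno (K.erase f) (Finset.erase_subset _ _) (Finset.mem_erase.2 ⟨hxf, hxK⟩) (by
      intro u hu w hw hwn
      have hwf : w = f := by
        by_contra h
        exact hwn (Finset.mem_erase.2 ⟨h, hw⟩)
      rw [hwf, hs]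
      exact ht u (Finset.mem_of_mem_erase hu))
    rw [← this] at hf
    exact Finset.notMem_erase _ _ hf
  · refine ⟨f, hKD hf, ht f hf, ht x hxK, ?_⟩
    intro u hu w hw h1 h2
    exact ht w (hcl u (hcl f hf u hu h1) w hw h2)

end

end Pool.Agent.H86.P4
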