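import Pool.Agent.H86.P4.ClaimA

set_option autoImplicit false

/-!
The matrix statement (P3) of helper17's `P3/Defs`, proved after helper44's note 7046 (MP_a46c6f_co):
a symmetric matrix over `ZMod 2` in which every closed pair has a midpoint and every induced path with
the colours `0110` has a bad point in its cell has no induced path on four vertices.
-/

namespace Pool.Agent.H86.P4

open Pool.Agent.H17.P3

variable {X : Type}

/-- a cylinder: closed under agreement in the columns which are constant on `C` -/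
def Cyl (M : X → X → ZMod 2) (C : Finset X) : Prop :=
  ∀ g, (∀ y s, (∀ x ∈ C, M x y = s) → M g y = s) → g ∈ C

theorem Cyl.mid {M : X → X → ZMod 2} {C : Finset X} (hC : Cyl M C) (hP : Pairs M) {u v : X}
    (hu : u ∈ C) (hv : v ∈ C) (h1 : M u u = M v v) (h2 : M u v ≠ M u u) :
    ∃ g ∈ C, M g g ≠ M u u ∧ M g u = M g g ∧ M g v = M g g ∧
      ∀ x, M u x = M v x → M g x = M u x := by
  obtain ⟨g, g1, g2, g3, g4⟩ := hP u v h1 h2
  refine ⟨g, ?_, g1, g2, g3, g4⟩
  apply hC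
  intro y s h
  rw [g4 y (by rw [h u hu, h v hv]), h u hu]

theorem Cyl.pairs {M : X → X → ZMod 2} {C : Finset X} (hC : Cyl M C) (hP : Pairs M) :
    PairsIn M C := by
  intro u hu v hv h1 h2
  obtain ⟨g, hg, g1, g2, g3, g4⟩ := hC.mid hP hu hv h1 h2
  exact ⟨g, hg, g1, g2, g3, fun x _ => g4 x⟩

theorem Cyl.filter {M : X → X → ZMod 2} {C : Finset X} (hC : Cyl M C) (w : X) (t : ZMod 2) :
    Cyl M (C.filter (fun x => M x w = t)) := by
  intro g hg
  rw [Finset.mem_filter]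
  refine ⟨hC g (fun y s h => hg y s (fun x hx => h x (Finset.mem_filter.1 hx).1)), ?_⟩
  exact hg w t (fun x hx => (Finset.mem_filter.1 hx).2)

/-- a minimal cylinder with an induced path -/
structure Min (M : X → X → ZMod 2) (C : Finset X) : Prop where
  sym : ∀ x y, M x y = M y x
  pairs : Pairs M
  split : P4Split M
  cyl : Cyl M C
  p4 : ¬ Free M C
  min : ∀ w t, (∃ x ∈ C, M x w ≠ t) → Free M (C.filter (fun x => M x w = t))

theorem zc (s : ZMod 2) : s + 1 + 1 = s := by revert s; decide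

theorem zi {a b : ZMod 2} (h : a + 1 = b) : a = b + 1 := by revert a b; decide

theorem Min.compl {M : X → X → ZMod 2} {C : Finset X} (h : Min M C) :
    Min (fun x y => M x y + 1) C where
  sym x y := by
    show M x y + 1 = M y x + 1
    rw [h.sym]
  pairs := by
    intro u v h1 h2
    simp only [add_left_inj, ne_eq] at h1 h2 ⊢
    exact h.pairs u v h1 h2
  split := by
    intro a b c d hp ha hb hc hd
    simp only [add_left_inj] at ha hb hc hd ⊢
    have hp' : IsP4 M b d a c := by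
      refine ⟨?_, ?_, ?_, ?_, ?_, ?_⟩
      · exact zi hp.bd
      · rw [h.sym]; exact zi hp.ad
      · exact zi hp.ac
      · rw [h.sym, zi hp.ab]; decide
      · rw [zi hp.bc]; decide
      · rw [h.sym, zi hp.cd]; decide
    obtain ⟨g, g1, g2⟩ := h.split b d a c hp' (by rw [zi hb]; decide) (by rw [zi hd]; decide)
      (by rw [zi ha]; decide) (by rw [zi hc]; decide)
    refine ⟨g, ⟨?_, ?_⟩, ?_⟩
    · show M g a + 1 ≠ M g d + 1
      intro h5
      exact g1.2 (add_left_injective 1 h5).symm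
    · show M g b + 1 ≠ M g c + 1
      intro h5
      exact g1.1 (add_left_injective 1 h5)
    · intro y h5 h6 h7
      rw [g2 y (by rw [← h5, h7]) (by rw [← h5]) (by rw [← h5, h6]), h5]
  cyl := by
    intro g hg
    apply h.cyl
    intro y s hs
    have := hg y (s + 1) (fun x hx => by
      show M x y + 1 = s + 1
      rw [hs x hx])
    exact add_left_injective 1 this
  p4 := by
    intro hF
    apply h.p4
    intro a ha b hb c hc d hd hp
    apply hF b hb d hd a ha c hc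
    refine ⟨?_, ?_, ?_, ?_, ?_, ?_⟩
    · show M b d + 1 = 1
      rw [hp.bd]; decide
    · show M d a + 1 = 1
      rw [h.sym, hp.ad]; decide
    · show M a c + 1 = 1
      rw [hp.ac]; decide
    · show M b a + 1 = 0
      rw [h.sym, hp.ab]; decide
    · show M b c + 1 = 0
      rw [hp.bc]; decide
    · show M d c + 1 = 0
      rw [h.sym, hp.cd]; decide
  min := by
    intro w t hx
    have h1 : C.filter (fun x => M x w + 1 = t) = C.filter (fun x => M x w = t + 1) := by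
      apply Finset.filter_congr
      intro x _
      constructor
      · exact zi
      · intro h2
        rw [h2, zc]
    show Free _ (C.filter (fun x => M x w + 1 = t))
    rw [h1]
    have hF := h.min w (t + 1) (by
      obtain ⟨x, hx, hx1⟩ := hx
      refine ⟨x, hx, ?_⟩
      intro h2
      apply hx1
      show M x w + 1 = t
      rw [h2, zc])
    intro a ha b hb c hc d hd hp
    apply hF b hb d hd a ha c hc
    refine ⟨?_, ?_, ?_, ?_, ?_, ?_⟩
    · exact zi hp.bd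
    · rw [h.sym]; exact zi hp.ad
    · exact zi hp.ac
    · rw [h.sym, zi hp.ab]; decide
    · rw [zi hp.bc]; decide
    · rw [h.sym, zi hp.cd]; decide

section
variable [DecidableEq X] {M : X → X → ZMod 2} {C : Finset X}

/-- step (1) -/
theorem Min.plus (h : Min M C) {w : X} (hw : w ∈ C) (hw0 : M w w = 0) {y : X} (hy : y ∈ C)
    (hwy : M w y = 1) :
    ∃ w' ∈ C, M w' w' = 1 ∧ M w' w = 1 ∧ ∀ y ∈ C, M w y = 1 → M w' y = 1 := by
  have hF := h.min w 1 ⟨w, hw, by rw [hw0]; exact zero_ne_one⟩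
  have hC := h.cyl.filter w 1
  obtain ⟨x, hx, t, ht⟩ := claimA h.sym _ _ rfl
    ⟨y, Finset.mem_filter.2 ⟨hy, by rw [h.sym]; exact hwy⟩⟩ hF (hC.pairs h.pairs)
  have hx' := Finset.mem_filter.1 hx
  rcases z01 t with rfl | rfl
  · exfalso
    obtain ⟨g, hg, g1, g2, g3, -⟩ := h.cyl.mid h.pairs hw hx'.1 (by rw [hw0, ht x hx])
      (by rw [h.sym, hx'.2, hw0]; exact one_ne_zero)
    rw [hw0] at g1
    have g5 := z1 g1
    rw [g5] at g2 g3
    have := ht g (Finset.mem_filter.2 ⟨hg, g2⟩)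
    rw [h.sym, g3] at this
    exact one_ne_zero this
  · exact ⟨x, hx'.1, ht x hx, hx'.2, fun y hy hwy =>
      ht y (Finset.mem_filter.2 ⟨hy, by rw [h.sym]; exact hwy⟩)⟩

/-- step (2) -/
theorem Min.iso (h : Min M C) {b c : X} (hc : c ∈ C) (hcc : M c c = 1)
    (hbc : M b c = 1) {y : X} (hy : y ∈ C) (hby : M b y = 1) (hcy : M c y = 0) :
    ∃ a ∈ C, M b a = 1 ∧ M c a = 0 ∧ ∀ z ∈ C, M b z = 1 → M c z = 0 → M a z = 0 := by
  have hF : Free M ((C.filter (fun x => M x b = 1)).filter (fun x => M x c = 0)) := by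
    apply (h.min c 0 ⟨c, hc, by rw [hcc]; exact one_ne_zero⟩).mono
    intro x hx
    rw [Finset.mem_filter, Finset.mem_filter] at hx
    exact Finset.mem_filter.2 ⟨hx.1.1, hx.2⟩
  have hC := (h.cyl.filter b 1).filter c 0
  have hmem : ∀ z, z ∈ (C.filter (fun x => M x b = 1)).filter (fun x => M x c = 0) ↔
      z ∈ C ∧ M b z = 1 ∧ M c z = 0 := by
    intro z
    rw [Finset.mem_filter, Finset.mem_filter, h.sym z b, h.sym z c, and_assoc]
  obtain ⟨a, ha, t, ht⟩ := claimA h.sym _ _ rfl ⟨y, (hmem y).2 ⟨hy, hby, hcy⟩⟩ hF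
    (hC.pairs h.pairs)
  obtain ⟨ha0, ha1, ha2⟩ := (hmem a).1 ha
  rcases z01 t with rfl | rfl
  · exact ⟨a, ha0, ha1, ha2, fun z hz h1 h2 => ht z ((hmem z).2 ⟨hz, h1, h2⟩)⟩
  · exfalso
    obtain ⟨g, hg, g1, g2, g3, g4⟩ := h.cyl.mid h.pairs ha0 hc (by rw [hcc, ht a ha])
      (by rw [h.sym, ha2, ht a ha]; exact zero_ne_one)
    rw [ht a ha] at g1
    have g5 := z0 g1
    rw [g5] at g2 g3
    have hgb : M g b = 1 := by
      rw [g4 b (by rw [h.sym a b, h.sym c b, ha1, hbc]), h.sym, ha1]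
    have := ht g ((hmem g).2 ⟨hg, by rw [h.sym]; exact hgb, by rw [h.sym]; exact g3⟩)
    rw [h.sym, g2] at this
    exact zero_ne_one this

/-- step (3) -/
theorem Min.bd (h : Min M C) (hfull : ¬ ∃ z ∈ C, ∀ y ∈ C, M z y = 1) :
    ∃ b ∈ C, M b b = 1 ∧
      (∀ z ∈ C, (∀ y ∈ C, M b y = 1 → M z y = 1) → ∀ y ∈ C, M z y = 1 → M b y = 1) ∧
      ∃ d ∈ C, M d d = 0 ∧ M b d = 0 ∧ (∃ y ∈ C, M d y = 1) ∧
        ∀ y ∈ C, M d y = 1 → M b y = 1 := by
  have hp4 := h.p4
  simp only [Free, not_forall, not_not] at hp4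
  obtain ⟨a1, ha1, a2, ha2, a3, ha3, a4, ha4, hp⟩ := hp4
  obtain ⟨b, hb, hbmax⟩ := Finset.exists_max_image C
    (fun b => (C.filter (fun y => M b y = 1)).card) ⟨a1, ha1⟩
  have hmax : ∀ z ∈ C, (∀ y ∈ C, M b y = 1 → M z y = 1) → ∀ y ∈ C, M z y = 1 → M b y = 1 := by
    intro z hz hsub y hy hzy
    have h1 : C.filter (fun y => M b y = 1) ⊆ C.filter (fun y => M z y = 1) := by
      intro x hx
      rw [Finset.mem_filter] at hx ⊢
      exact ⟨hx.1, hsub x hx.1 hx.2⟩
    have h2 := Finset.eq_of_subset_of_card_le h1 (hbmax z hz)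
    have h3 : y ∈ C.filter (fun y => M b y = 1) := by
      rw [h2]
      exact Finset.mem_filter.2 ⟨hy, hzy⟩
    exact (Finset.mem_filter.1 h3).2
  have hbne : ∃ y ∈ C, M b y = 1 := by
    have h1 := hbmax a1 ha1
    have h2 : 0 < (C.filter (fun y => M a1 y = 1)).card :=
      Finset.card_pos.2 ⟨a2, Finset.mem_filter.2 ⟨ha2, hp.ab⟩⟩
    obtain ⟨y, hy⟩ := Finset.card_pos.1 (lt_of_lt_of_le h2 h1)
    rw [Finset.mem_filter] at hy
    exact ⟨y, hy.1, hy.2⟩
  have hbb : M b b = 1 := by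
    rcases z01 (M b b) with h0 | h0
    · obtain ⟨y, hy, hby⟩ := hbne
      obtain ⟨b', hb', h1, h2, h3⟩ := h.plus hb h0 hy hby
      exact hmax b' hb' h3 b hb h2
    · exact h0
  obtain ⟨y0, hy0, hby0⟩ : ∃ y ∈ C, M b y = 0 := by
    by_contra hno
    apply hfull
    refine ⟨b, hb, fun y hy => z1 (fun h0 => hno ⟨y, hy, h0⟩)⟩
  have hF1 := h.min b 1 ⟨y0, hy0, by rw [h.sym, hby0]; exact zero_ne_one⟩
  have hF0 := h.min b 0 ⟨b, hb, by rw [hbb]; exact one_ne_zero⟩
  -- an edge which leaves `N(b)`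
  obtain ⟨y, hy, z, hz, hyb, hzb, hyz⟩ : ∃ y ∈ C, ∃ z ∈ C, M y b = 1 ∧ M z b = 0 ∧ M y z = 1 := by
    have key : ∀ y ∈ C, ∀ z ∈ C, M y z = 1 → M y b ≠ M z b →
        ∃ y ∈ C, ∃ z ∈ C, M y b = 1 ∧ M z b = 0 ∧ M y z = 1 := by
      intro y hy z hz hyz hne
      rcases z01 (M y b) with h0 | h0
      · rcases z01 (M z b) with h1 | h1
        · rw [h0, h1] at hne
          exact absurd rfl hne
        · exact ⟨z, hz, y, hy, h1, h0, by rw [h.sym]; exact hyz⟩
      · rcases z01 (M z b) with h1 | h1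
        · exact ⟨y, hy, z, hz, h0, h1, hyz⟩
        · rw [h0, h1] at hne
          exact absurd rfl hne
    by_cases e1 : M a1 b = M a2 b
    · by_cases e2 : M a2 b = M a3 b
      · by_cases e3 : M a3 b = M a4 b
        · exfalso
          rcases z01 (M a1 b) with h0 | h0
          · exact hF0 a1 (Finset.mem_filter.2 ⟨ha1, h0⟩) a2
              (Finset.mem_filter.2 ⟨ha2, by rw [← e1, h0]⟩) a3
              (Finset.mem_filter.2 ⟨ha3, by rw [← e2, ← e1, h0]⟩) a4
              (Finset.mem_filter.2 ⟨ha4, by rw [← e3, ← e2, ← e1, h0]⟩) hp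
          · exact hF1 a1 (Finset.mem_filter.2 ⟨ha1, h0⟩) a2
              (Finset.mem_filter.2 ⟨ha2, by rw [← e1, h0]⟩) a3
              (Finset.mem_filter.2 ⟨ha3, by rw [← e2, ← e1, h0]⟩) a4
              (Finset.mem_filter.2 ⟨ha4, by rw [← e3, ← e2, ← e1, h0]⟩) hp
        · exact key a3 ha3 a4 ha4 hp.cd e3
      · exact key a2 ha2 a3 ha3 hp.bc e2
    · exact key a1 ha1 a2 ha2 hp.ab e1
  -- the vertex `c`
  obtain ⟨c, hc, hcc, hcb, hcz⟩ : ∃ c ∈ C, M c c = 1 ∧ M c b = 1 ∧ M c z = 1 := by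
    rcases z01 (M y y) with h0 | h0
    · obtain ⟨c, hc, h1, h2, h3⟩ := h.plus hy h0 hb hyb
      exact ⟨c, hc, h1, h3 b hb hyb, h3 z hz hyz⟩
    · exact ⟨y, hy, h0, hyb, hyz⟩
  obtain ⟨d', hd', hcd', hbd', hiso⟩ := h.iso (b := c) hb hbb hcb hz hcz (by rw [h.sym]; exact hzb)
  have hdd' : M d' d' = 0 := hiso d' hd' hcd' hbd'
  obtain ⟨q, hq, hqq, hqd, hqN⟩ := h.plus hd' hdd' hc (by rw [h.sym]; exact hcd')
  have hqc : M q c = 1 := hqN c hc (by rw [h.sym]; exact hcd')
  have hbq : M b q = 1 := by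
    apply z1
    intro h0
    have := hiso q hq (by rw [h.sym]; exact hqc) h0
    rw [h.sym, hqd] at this
    exact one_ne_zero this
  refine ⟨b, hb, hbb, hmax, ?_⟩
  by_cases hall : ∀ y ∈ C, M d' y = 1 → M b y = 1
  · exact ⟨d', hd', hdd', hbd', ⟨c, hc, by rw [h.sym]; exact hcd'⟩, hall⟩
  · simp only [not_forall] at hall
    obtain ⟨y1, hy1, hdy1, hby1⟩ := hall
    have hby1' := z0 hby1
    have hd'G : d' ∈ C.filter (fun x => M x b = 0) :=
      Finset.mem_filter.2 ⟨hd', by rw [h.sym]; exact hbd'⟩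
    have hy1G : y1 ∈ C.filter (fun x => M x b = 0) :=
      Finset.mem_filter.2 ⟨hy1, by rw [h.sym]; exact hby1'⟩
    obtain ⟨f, hf, hff, hfd, hcl⟩ := comp h.sym hF0 ((h.cyl.filter b 0).pairs h.pairs) hd'G hy1G hdy1
    have hf' := Finset.mem_filter.1 hf
    obtain ⟨g, hg, g1, g2, g3, g4⟩ := h.cyl.mid h.pairs hf'.1 hb (by rw [hff, hbb])
      (by rw [hf'.2, hff]; exact zero_ne_one)
    rw [hff] at g1
    have g5 := z0 g1
    rw [g5] at g2 g3
    have hgG : g ∈ C.filter (fun x => M x b = 0) := Finset.mem_filter.2 ⟨hg, g3⟩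
    have hfq : M f q = 1 := by
      rw [h.sym]
      exact hqN f hf'.1 (by rw [h.sym]; exact hfd)
    refine ⟨g, hg, g5, by rw [h.sym]; exact g3, ⟨q, hq, by rw [g4 q (by rw [hfq, hbq]), hfq]⟩, ?_⟩
    intro x hx hgx
    apply z1
    intro h0
    have hxG : x ∈ C.filter (fun x => M x b = 0) := Finset.mem_filter.2 ⟨hx, by rw [h.sym]; exact h0⟩
    rcases z01 (M f x) with h1 | h1
    · have := g4 x (by rw [h1, h0])
      rw [hgx, h1] at this
      exact one_ne_zero this
    · have := hcl x hxG g hgG h1 (by rw [h.sym]; exact hgx)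
      rw [h.sym, g2] at this
      exact zero_ne_one this

/-- steps (4), (5) -/
theorem Min.no_full (h : Min M C) (hfull : ¬ ∃ z ∈ C, ∀ y ∈ C, M z y = 1) : False := by
  obtain ⟨b, hb, hbb, hmax, d, hd, hdd, hbd, ⟨y, hy, hdy⟩, hdb⟩ := h.bd hfull
  obtain ⟨c, hc, hcc, hcd, hdc⟩ := h.plus hd hdd hy hdy
  have hbc : M b c = 1 := hdb c hc (by rw [h.sym]; exact hcd)
  obtain ⟨y1, hy1, hby1, hcy1⟩ : ∃ y ∈ C, M b y = 1 ∧ M c y = 0 := by
    by_contra hno
    have := hmax c hc (fun y hy h1 => z1 (fun h0 => hno ⟨y, hy, h1, h0⟩)) d hd hcd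
    rw [hbd] at this
    exact zero_ne_one this
  obtain ⟨a, ha, hba, hca, hiso⟩ := h.iso hc hcc hbc hy1 hby1 hcy1
  have haa : M a a = 0 := hiso a ha hba hca
  have had : M a d = 0 := by
    apply z0
    intro h1
    have := hdc a ha (by rw [h.sym]; exact h1)
    rw [hca] at this
    exact zero_ne_one this
  have hp : IsP4 M a b c d :=
    ⟨by rw [h.sym]; exact hba, hbc, hcd, by rw [h.sym]; exact hca, had, hbd⟩
  obtain ⟨g, ⟨hg1, hg2⟩, hg3⟩ := h.split a b c d hp haa hbb hcc hdd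
  have hg : g ∈ C := by
    apply h.cyl
    intro y s hs
    rw [hg3 y (by rw [hs a ha, hs b hb]) (by rw [hs a ha, hs c hc]) (by rw [hs a ha, hs d hd]),
      hs a ha]
  have hgd : M g d = 0 := by
    apply z0
    intro h1
    apply hg2
    rw [h.sym g b, h.sym g c, hdb g hg (by rw [h.sym]; exact h1),
      hdc g hg (by rw [h.sym]; exact h1)]
  have hga : M g a = 1 := by
    apply z1
    intro h0
    exact hg1 (by rw [h0, hgd])
  have hgc : M g c = 1 := by
    apply z1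
    intro h0
    have hgb : M g b = 1 := z1 (fun h1 => hg2 (by rw [h0, h1]))
    have := hiso g hg (by rw [h.sym]; exact hgb) (by rw [h.sym]; exact h0)
    rw [h.sym, hga] at this
    exact one_ne_zero this
  have hgb : M g b = 0 := z0 (fun h1 => hg2 (by rw [hgc, h1]))
  have hF := h.min d 0 ⟨c, hc, by rw [hcd]; exact one_ne_zero⟩
  have haE : a ∈ C.filter (fun x => M x d = 0) := Finset.mem_filter.2 ⟨ha, had⟩
  have hbE : b ∈ C.filter (fun x => M x d = 0) := Finset.mem_filter.2 ⟨hb, hbd⟩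
  have hgE : g ∈ C.filter (fun x => M x d = 0) := Finset.mem_filter.2 ⟨hg, hgd⟩
  obtain ⟨f, hf, hff, hfa, hcl⟩ := comp h.sym hF ((h.cyl.filter d 0).pairs h.pairs) haE hbE hp.ab
  have hf' := Finset.mem_filter.1 hf
  have hfb : M f b = 1 := hcl a haE b hbE hfa hp.ab
  have hfg : M f g = 1 := hcl a haE g hgE hfa (by rw [h.sym]; exact hga)
  have hfc : M f c = 1 := by
    apply z1
    intro h0
    have := hiso f hf'.1 (by rw [h.sym]; exact hfb) (by rw [h.sym]; exact h0)
    rw [h.sym, hfa] at this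
    exact one_ne_zero this
  obtain ⟨v, hv, hdv, hfv⟩ : ∃ v ∈ C, M d v = 1 ∧ M f v = 0 := by
    by_contra hno
    have := hmax f hf'.1 (by
      intro y hy hby
      rcases z01 (M d y) with h0 | h0
      · exact hcl b hbE y (Finset.mem_filter.2 ⟨hy, by rw [h.sym]; exact h0⟩) hfb hby
      · exact z1 (fun h1 => hno ⟨y, hy, h0, h1⟩)) g hg hfg
    rw [h.sym, hgb] at this
    exact zero_ne_one this
  have hbv := hdb v hv hdv
  have hcv := hdc v hv hdv
  have hF2 := h.min c 1 ⟨a, ha, by rw [hp.ac]; exact zero_ne_one⟩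
  exact hF2 f (Finset.mem_filter.2 ⟨hf'.1, hfc⟩) b (Finset.mem_filter.2 ⟨hb, hbc⟩) v
    (Finset.mem_filter.2 ⟨hv, by rw [h.sym]; exact hcv⟩) d
    (Finset.mem_filter.2 ⟨hd, by rw [h.sym]; exact hcd⟩)
    ⟨hfb, hbv, by rw [h.sym]; exact hdv, hfv, hf'.2, hbd⟩

end

/-- no minimal cylinder -/
theorem Min.false [DecidableEq X] {M : X → X → ZMod 2} {C : Finset X} (h : Min M C) : False := by
  by_cases hfull : ∃ z ∈ C, ∀ y ∈ C, M z y = 1
  · obtain ⟨z, hz, hz1⟩ := hfull
    apply h.compl.no_full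
    rintro ⟨x, hx, hx1⟩
    have h1 := zi (hx1 z hz)
    rw [h.sym, hz1 x hx] at h1
    revert h1
    decide
  · exact h.no_full hfull

/-- **(P3)** -/
theorem p3 : P3 := by
  intro X hX M hs hP hS a b c d hp
  classical
  have := Fintype.ofFinite X
  have hex : ∃ k, ∃ C : Finset X, (Cyl M C ∧ ¬ Free M C) ∧ C.card = k := by
    refine ⟨_, Finset.univ, ⟨fun g _ => Finset.mem_univ g, ?_⟩, rfl⟩
    intro hF
    exact hF a (Finset.mem_univ _) b (Finset.mem_univ _) c (Finset.mem_univ _) d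
      (Finset.mem_univ _) hp
  obtain ⟨C, ⟨hC, hF⟩, hCc⟩ := Nat.find_spec hex
  have hmin : ∀ D, Cyl M D → ¬ Free M D → C.card ≤ D.card := by
    intro D hD hDF
    rw [hCc]
    exact Nat.find_min' hex ⟨D, ⟨hD, hDF⟩, rfl⟩
  have h : Min M C := by
    refine ⟨hs, hP, hS, hC, hF, ?_⟩
    intro w t hx
    by_contra hno
    have h1 := hmin _ (hC.filter w t) hno
    obtain ⟨x, hx, hxt⟩ := hx
    have h2 := Finset.eq_of_subset_of_card_le (Finset.filter_subset _ _) h1
    rw [← h2] at hx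
    exact hxt (Finset.mem_filter.1 hx).2
  exact h.false

end Pool.Agent.H86.P4
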